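import Pool.Agent.Helper43.FV.Spec
import Pool.Agent.Helper59.RS.PLACE

/-! # Module D3: almost all places of a one-dimensional subfield are under a prime divisor -/

namespace Pool.Agent.Helper43.FV

open Pool.Agent.Helper43.RS

section D3val

variable {F : Type} [Field F] [Algebra ℂ F]

/-- the valuation ring of a place -/
def D3_vs (w : Pl F) : ValuationSubring F where
  carrier := {f | f = 0 ∨ 0 ≤ w.1 f}
  mul_mem' := by
    rintro a b ha hb
    by_cases h1 : a = 0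
    · left; rw [h1, zero_mul]
    by_cases h2 : b = 0
    · left; rw [h2, mul_zero]
    right
    rw [w.2.mul a b h1 h2]
    rcases ha with ha | ha
    · exact absurd ha h1
    rcases hb with hb | hb
    · exact absurd hb h2
    omega
  one_mem' := by
    right
    have h := w.2.const 1
    rw [map_one] at h
    exact h.ge
  add_mem' := by
    rintro a b ha hb
    by_cases h1 : a = 0
    · rw [h1, zero_add]; exact hb
    by_cases h2 : b = 0
    · rw [h2, add_zero]; exact ha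
    by_cases h3 : a + b = 0
    · left; exact h3
    right
    rcases ha with ha | ha
    · exact absurd ha h1
    rcases hb with hb | hb
    · exact absurd hb h2
    exact le_trans (le_min ha hb) (w.2.add a b h1 h2 h3)
  zero_mem' := Or.inl rfl
  neg_mem' := by
    rintro a ha
    by_cases h1 : a = 0
    · left; rw [h1, neg_zero]
    right
    have h2 : -a = algebraMap ℂ F (-1) * a := by simp
    rw [h2, w.2.mul _ _ (by simp) h1, w.2.const]
    rcases ha with ha | ha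
    · exact absurd ha h1
    omega
  mem_or_inv_mem' := by
    intro a
    by_cases h1 : a = 0
    · left; left; exact h1
    have h2 : w.1 (a * a⁻¹) = w.1 a + w.1 a⁻¹ := w.2.mul a a⁻¹ h1 (inv_ne_zero h1)
    rw [mul_inv_cancel₀ h1] at h2
    have h3 := w.2.const 1
    rw [map_one] at h3
    rcases le_total 0 (w.1 a) with h | h
    · left; right; exact h
    · right; right; omega

theorem D3_mem_vs {w : Pl F} {f : F} : f ∈ D3_vs w ↔ f = 0 ∨ 0 ≤ w.1 f := Iff.rfl

theorem D3_const_mem (w : Pl F) (c : ℂ) : algebraMap ℂ F c ∈ D3_vs w :=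
  Or.inr (w.2.const c).ge

end D3val

open scoped IntermediateField.algebraAdjoinAdjoin in
theorem D3_closure {F : Type} [Field F] [Algebra ℂ F] (t : F)
    (hfin : 0 < Module.finrank (IntermediateField.adjoin ℂ {t}) F) :
    IsDedekindDomain (PLACE.BB t) ∧ IsFractionRing (PLACE.BB t) F ∧
      Algebra.FiniteType ℂ (PLACE.BB t) := by
  have h1 := PLACE.isPrincipal t
  have h4 : Module.Finite (IntermediateField.adjoin ℂ {t}) F := Module.finite_of_finrank_pos hfin
  refine ⟨integralClosure.isDedekindDomain (PLACE.AA t) (IntermediateField.adjoin ℂ {t}) F,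
    integralClosure.isFractionRing_of_finite_extension (A := PLACE.AA t)
      (IntermediateField.adjoin ℂ {t}) F, ?_⟩
  have h5 : Module.Finite (PLACE.AA t) (PLACE.BB t) :=
    IsIntegralClosure.finite (PLACE.AA t) (IntermediateField.adjoin ℂ {t}) F (PLACE.BB t)
  have h6 : Algebra.FiniteType ℂ (PLACE.AA t) := by
    rw [← Subalgebra.fg_iff_finiteType]
    exact ⟨{t}, by simp⟩
  have h7 : Algebra.FiniteType (PLACE.AA t) (PLACE.BB t) := inferInstance
  exact Algebra.FiniteType.trans h6 h7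

theorem D3_zpow {L : Type} [Field L] (u : L → ℤ)
    (hmul : ∀ f g : L, f ≠ 0 → g ≠ 0 → u (f * g) = u f + u g) (h1 : u 1 = 0) {π : L}
    (hπ : π ≠ 0) (k : ℤ) : u (π ^ k) = k * u π := by
  have hnat : ∀ n : ℕ, u (π ^ n) = n * u π := by
    intro n
    induction n with
    | zero => simp [h1]
    | succ n ih =>
      rw [pow_succ, hmul _ _ (pow_ne_zero _ hπ) hπ, ih]
      push_cast
      ring
  rcases Int.eq_nat_or_neg k with ⟨n, rfl | rfl⟩
  · rw [zpow_natCast, hnat]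
  · have h2 := hmul (π ^ n) (π ^ (-(n : ℤ))) (pow_ne_zero _ hπ) (zpow_ne_zero _ hπ)
    rw [← zpow_natCast, ← zpow_add₀ hπ, add_neg_cancel, zpow_zero, h1, zpow_natCast, hnat] at h2
    linarith

open IsDedekindDomain in
theorem D3_over {K : Type} [Field K] [Algebra ℂ K] (F : IntermediateField ℂ K) {t : F} (w : Pl F)
    [IsDedekindDomain (PLACE.BB t)] [IsFractionRing (PLACE.BB t) F]
    (q : HeightOneSpectrum (PLACE.BB t))
    (hw : ∀ b : PLACE.BB t, b ≠ 0 → 0 ≤ w.1 b)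
    (hq : ∀ b : PLACE.BB t, b ≠ 0 → (b ∈ q.asIdeal ↔ 0 < w.1 b))
    (v : K → ℤ) (hv : IsPlace v)
    (hv1 : ∀ b : PLACE.BB t, b ≠ 0 → b ∈ q.asIdeal → 0 < v ((b : F) : K))
    (hv0 : ∀ b : PLACE.BB t, b ≠ 0 → b ∉ q.asIdeal → v ((b : F) : K) = 0) :
    ∃ e : ℤ, Over F v e w.1 := by
  have hw0 : ∀ b : PLACE.BB t, b ≠ 0 → b ∉ q.asIdeal → w.1 b = 0 := by
    intro b hb hbq
    rw [hq b hb] at hbq
    have := hw b hb
    omega
  have hcoe : ∀ f : F, f ≠ 0 → (f : K) ≠ 0 := fun f hf h => hf (Subtype.ext h)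
  have hcoeB : ∀ b : PLACE.BB t, b ≠ 0 → ((b : F)) ≠ 0 := fun b hb h => hb (Subtype.ext h)
  have hvmul : ∀ f g : F, f ≠ 0 → g ≠ 0 → v ((f * g : F) : K) = v f + v g := fun f g hf hg => by
    rw [MulMemClass.coe_mul]
    exact hv.mul _ _ (hcoe f hf) (hcoe g hg)
  have hv1' : v ((1 : F) : K) = 0 := by
    have := hv.const 1
    rwa [map_one] at this
  have hw1' : w.1 (1 : F) = 0 := by
    have := w.2.const 1
    rwa [map_one] at this
  have frac : ∀ f : F, f ≠ 0 → ∃ n d : PLACE.BB t, n ≠ 0 ∧ d ≠ 0 ∧ f * d = n ∧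
      (d ∉ q.asIdeal ∨ n ∉ q.asIdeal) := by
    intro f hf
    rcases le_total (q.valuation F f) 1 with h | h
    · obtain ⟨n, d, hnd⟩ := HeightOneSpectrum.exists_primeCompl_mul_eq_of_integer _ f h
      have hd : (d : PLACE.BB t) ≠ 0 := by
        intro h0
        exact d.2 (by rw [h0]; exact q.asIdeal.zero_mem)
      refine ⟨n, d, ?_, hd, hnd, Or.inl d.2⟩
      rintro rfl
      rw [map_zero] at hnd
      rcases mul_eq_zero.mp hnd with h1 | h1
      · exact hf h1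
      · exact hcoeB _ hd h1
    · have h' : q.valuation F f⁻¹ ≤ 1 := by
        rw [map_inv₀]
        exact inv_le_one_of_one_le₀ h
      obtain ⟨n, d, hnd⟩ := HeightOneSpectrum.exists_primeCompl_mul_eq_of_integer _ f⁻¹ h'
      have hd : (d : PLACE.BB t) ≠ 0 := by
        intro h0
        exact d.2 (by rw [h0]; exact q.asIdeal.zero_mem)
      have hnd' : f⁻¹ * ((d : PLACE.BB t) : F) = (n : F) := hnd
      have hn : n ≠ 0 := by
        rintro rfl
        rcases mul_eq_zero.mp hnd' with h1 | h1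
        · exact inv_ne_zero hf h1
        · exact hcoeB _ hd h1
      refine ⟨d, n, hd, hn, ?_, Or.inr d.2⟩
      rw [← hnd', ← mul_assoc, mul_inv_cancel₀ hf, one_mul]
  obtain ⟨π, hπ0, hπ⟩ := w.2.one
  have units : ∀ f : F, f ≠ 0 → w.1 f = 0 → v f = 0 := by
    intro f hf hwf
    obtain ⟨n, d, hn, hd, hnd, hor⟩ := frac f hf
    have h1 := w.2.mul f d hf (hcoeB d hd)
    rw [hnd, hwf] at h1
    have h2 := hvmul f d hf (hcoeB d hd)
    rw [hnd] at h2
    have h3 : n ∉ q.asIdeal ∧ d ∉ q.asIdeal := by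
      rcases hor with h | h
      · refine ⟨?_, h⟩
        rw [hq n hn, h1, hw0 d hd h]
        omega
      · refine ⟨h, ?_⟩
        rw [hq d hd]
        have := hw0 n hn h
        omega
    have h4 := hv0 n hn h3.1
    have h5 := hv0 d hd h3.2
    omega
  refine ⟨v π, ?_, ?_⟩
  · obtain ⟨n, d, hn, hd, hnd, hor⟩ := frac π hπ0
    have h1 := w.2.mul π d hπ0 (hcoeB d hd)
    rw [hnd, hπ] at h1
    have h2 := hvmul π d hπ0 (hcoeB d hd)
    rw [hnd] at h2
    have h3 : d ∉ q.asIdeal := by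
      rcases hor with h | h
      · exact h
      · exfalso
        have h4 := hw0 n hn h
        have h5 := hw d hd
        omega
    have h4 := hw0 d hd h3
    have h5 : n ∈ q.asIdeal := by
      rw [hq n hn]
      omega
    have h6 := hv1 n hn h5
    have h7 := hv0 d hd h3
    omega
  · intro f
    by_cases hf : f = 0
    · rw [hf, w.2.zero, mul_zero, ZeroMemClass.coe_zero, hv.zero]
    · have h1 : w.1 (f * π ^ (-w.1 f)) = 0 := by
        rw [w.2.mul _ _ hf (zpow_ne_zero _ hπ0), D3_zpow w.1 w.2.mul hw1' hπ0, hπ]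
        ring
      have h2 := units _ (mul_ne_zero hf (zpow_ne_zero _ hπ0)) h1
      rw [hvmul _ _ hf (zpow_ne_zero _ hπ0)] at h2
      have h3 := D3_zpow (fun f : F => v f) hvmul hv1' hπ0 (-w.1 f)
      rw [h3] at h2
      linarith

theorem D3_loc {K : Type} [Field K] [Algebra ℂ K] (R : Subalgebra ℂ K) (hR : IsChart R) (g : R)
    (hg : (g : K) ≠ 0) : ∃ T : Subalgebra ℂ K, T.FG ∧ R ≤ T ∧ (g : K)⁻¹ ∈ T ∧
      ∀ x ∈ T, ∃ (n : ℕ) (r : R), x * (g : K) ^ n = r := by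
  obtain ⟨s, hs⟩ := hR.fg
  classical
  refine ⟨Algebra.adjoin ℂ ((insert (g : K)⁻¹ s : Finset K) : Set K), ⟨_, rfl⟩, ?_, ?_, ?_⟩
  · refine hs.symm.le.trans (Algebra.adjoin_mono ?_)
    intro x hx
    simp only [Finset.coe_insert, Set.mem_insert_iff]
    exact Or.inr hx
  · apply Algebra.subset_adjoin
    simp
  · intro x hx
    induction hx using Algebra.adjoin_induction with
    | mem x hx =>
      simp only [Finset.coe_insert, Set.mem_insert_iff] at hx
      rcases hx with rfl | hx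
      · exact ⟨1, 1, by rw [pow_one, inv_mul_cancel₀ hg]; rfl⟩
      · have : x ∈ R := by
          rw [← hs]
          exact Algebra.subset_adjoin hx
        exact ⟨0, ⟨x, this⟩, by simp⟩
    | algebraMap r => exact ⟨0, algebraMap ℂ R r, by simp⟩
    | add x y _ _ hx hy =>
      obtain ⟨n, r, h1⟩ := hx
      obtain ⟨m, r', h2⟩ := hy
      refine ⟨n + m, r * g ^ m + r' * g ^ n, ?_⟩
      push_cast
      rw [← h1, ← h2]
      ring
    | mul x y _ _ hx hy =>
      obtain ⟨n, r, h1⟩ := hx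
      obtain ⟨m, r', h2⟩ := hy
      refine ⟨n + m, r * r', ?_⟩
      push_cast
      rw [← h1, ← h2]
      ring

theorem D3_denoms {K : Type} [Field K] [Algebra ℂ K] (R : Subalgebra ℂ K) (hR : IsChart R)
    (s : Finset K) : ∃ g : R, (g : K) ≠ 0 ∧ ∀ x ∈ s, ∃ r : R, x * (g : K) = r := by
  classical
  induction s using Finset.induction_on with
  | empty => exact ⟨1, by simp, by simp⟩
  | insert a s ha ih =>
    obtain ⟨g, hg, h⟩ := ih
    obtain ⟨p, q, hq, hpq⟩ := hR.frac a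
    refine ⟨g * q, ?_, ?_⟩
    · push_cast
      exact mul_ne_zero hg hq
    · intro x hx
      rw [Finset.mem_insert] at hx
      rcases hx with rfl | hx
      · refine ⟨g * p, ?_⟩
        push_cast
        rw [← hpq]
        ring
      · obtain ⟨r, hr⟩ := h x hx
        refine ⟨r * q, ?_⟩
        push_cast
        rw [← hr]
        ring


/-- the ideal of elements of positive value -/
def D3_P {B : Type} [CommRing B] [IsDomain B] (u : B → ℤ)
    (hmul : ∀ a b, a ≠ 0 → b ≠ 0 → u (a * b) = u a + u b)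
    (hadd : ∀ a b, a ≠ 0 → b ≠ 0 → a + b ≠ 0 → min (u a) (u b) ≤ u (a + b))
    (hpos : ∀ a, a ≠ 0 → 0 ≤ u a) : Ideal B where
  carrier := {b | b = 0 ∨ 0 < u b}
  add_mem' := by
    rintro a b ha hb
    by_cases h1 : a = 0
    · rw [h1, zero_add]; exact hb
    by_cases h2 : b = 0
    · rw [h2, add_zero]; exact ha
    by_cases h3 : a + b = 0
    · left; exact h3
    right
    rcases ha with ha | ha
    · exact absurd ha h1
    rcases hb with hb | hb
    · exact absurd hb h2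
    exact lt_of_lt_of_le (lt_min ha hb) (hadd a b h1 h2 h3)
  zero_mem' := Or.inl rfl
  smul_mem' := by
    rintro a b hb
    by_cases h1 : a = 0
    · left; rw [h1, zero_smul]
    by_cases h2 : b = 0
    · left; rw [h2, smul_zero]
    right
    rcases hb with hb | hb
    · exact absurd hb h2
    rw [smul_eq_mul, hmul a b h1 h2]
    have := hpos a h1
    omega

theorem D3_mem_P {B : Type} [CommRing B] [IsDomain B] {u : B → ℤ}
    {hmul : ∀ a b, a ≠ 0 → b ≠ 0 → u (a * b) = u a + u b}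
    {hadd : ∀ a b, a ≠ 0 → b ≠ 0 → a + b ≠ 0 → min (u a) (u b) ≤ u (a + b)}
    {hpos : ∀ a, a ≠ 0 → 0 ≤ u a} {b : B} :
    b ∈ D3_P u hmul hadd hpos ↔ b = 0 ∨ 0 < u b := Iff.rfl

theorem D3_P_prime {B : Type} [CommRing B] [IsDomain B] (u : B → ℤ)
    (hmul : ∀ a b, a ≠ 0 → b ≠ 0 → u (a * b) = u a + u b)
    (hadd : ∀ a b, a ≠ 0 → b ≠ 0 → a + b ≠ 0 → min (u a) (u b) ≤ u (a + b))
    (hpos : ∀ a, a ≠ 0 → 0 ≤ u a) : (D3_P u hmul hadd hpos).IsPrime := by
  constructor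
  · intro h
    have h1 : (1 : B) ∈ D3_P u hmul hadd hpos := by rw [h]; trivial
    rcases D3_mem_P.mp h1 with h2 | h2
    · exact one_ne_zero h2
    · have h3 := hmul 1 1 one_ne_zero one_ne_zero
      rw [mul_one] at h3
      omega
  · intro a b hab
    rw [D3_mem_P] at hab
    rw [D3_mem_P, D3_mem_P]
    by_cases h1 : a = 0
    · left; left; exact h1
    by_cases h2 : b = 0
    · right; left; exact h2
    rcases hab with hab | hab
    · exact absurd hab (mul_ne_zero h1 h2)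
    rw [hmul a b h1 h2] at hab
    have h3 := hpos a h1
    have h4 := hpos b h2
    rcases lt_or_ge 0 (u a) with h | h
    · left; right; exact h
    · right; right; omega

theorem D3_point {B : Type} [CommRing B] [Algebra ℂ B] (P : Ideal B) (hP : P.IsPrime)
    (hres : ∀ b : B, ∃ c : ℂ, b - algebraMap ℂ B c ∈ P) :
    ∃ z : B →ₐ[ℂ] ℂ, ∀ b, z b = 0 ↔ b ∈ P := by
  have hbij : Function.Bijective (Algebra.ofId ℂ (B ⧸ P)) := by
    constructor
    · exact (Algebra.ofId ℂ (B ⧸ P)).toRingHom.injective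
    · intro x
      obtain ⟨b, rfl⟩ := Ideal.Quotient.mk_surjective x
      obtain ⟨c, hc⟩ := hres b
      exact ⟨c, (Ideal.Quotient.eq.mpr hc).symm⟩
  refine ⟨((AlgEquiv.ofBijective _ hbij).symm : (B ⧸ P) →ₐ[ℂ] ℂ).comp
    (Ideal.Quotient.mkₐ ℂ P), fun b => ?_⟩
  change (AlgEquiv.ofBijective _ hbij).symm (Ideal.Quotient.mk P b) = 0 ↔ b ∈ P
  rw [EmbeddingLike.map_eq_zero_iff, Ideal.Quotient.eq_zero_iff_mem]

theorem D3_krull {R : Type} [CommRing R] [IsDomain R] [IsNoetherianRing R] (r : R) (hr : r ≠ 0)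
    (M : Ideal R) (hM : M.IsPrime) (hrM : r ∈ M) : ∃ Q : Ideal R, Q.IsPrime ∧ Q ≠ ⊥ ∧ Q ≤ M ∧
      r ∈ Q ∧ ∀ P' : Ideal R, P'.IsPrime → P' ≤ Q → P' = ⊥ ∨ P' = Q := by
  obtain ⟨Q, hQ, hQM⟩ := Ideal.exists_minimalPrimes_le
    (I := Ideal.span {r}) (J := M) ((Ideal.span_singleton_le_iff_mem M).mpr hrM)
  have hQp : Q.IsPrime := hQ.1.1
  have hrQ : r ∈ Q := (Ideal.span_singleton_le_iff_mem Q).mp hQ.1.2
  refine ⟨Q, hQp, ?_, hQM, hrQ, ?_⟩
  · rintro rfl
    exact hr ((Ideal.mem_bot).mp hrQ)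
  · intro P' hP' hle
    by_contra hcon
    rw [not_or] at hcon
    have h1 : Q.height ≤ 1 := Ideal.height_le_one_of_isPrincipal_of_mem_minimalPrimes _ Q hQ
    have h2 : (⊥ : Ideal R) < P' := bot_lt_iff_ne_bot.mpr hcon.1
    have h3 : P' < Q := lt_of_le_of_ne hle hcon.2
    have hb : (⊥ : Ideal R).IsPrime := Ideal.isPrime_bot
    have h4 := Ideal.height_add_one_le_of_lt_of_isPrime h2
    have h5 := Ideal.height_add_one_le_of_lt_of_isPrime h3
    have h6 : (2 : ℕ∞) ≤ Q.height := by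
      calc (2 : ℕ∞) = 0 + 1 + 1 := by norm_num
        _ ≤ (⊥ : Ideal R).height + 1 + 1 := by gcongr; exact zero_le
        _ ≤ P'.height + 1 := by gcongr
        _ ≤ Q.height := h5
    have h7 := h6.trans h1
    norm_num at h7


open IsDedekindDomain in
theorem D3_hit (hHT1 : ST_HT1) (hRES : ST_RES) {K : Type} [Field K] [Algebra ℂ K]
    (X : Set (Subalgebra ℂ K)) (F : IntermediateField ℂ K) (hF : FF F) (t : F)
    (ht : ∀ c : ℂ, t ≠ algebraMap ℂ F c)
    (hded : IsDedekindDomain (PLACE.BB t)) (hfr : IsFractionRing (PLACE.BB t) F)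
    (R : Subalgebra ℂ K) (hR : IsChart R) (hXR : ∀ φ : R →ₐ[ℂ] ℂ, locAt R φ ∈ X)
    (g : R) (hg : (g : K) ≠ 0) (T : Subalgebra ℂ K) (hRT : R ≤ T) (hgT : (g : K)⁻¹ ∈ T)
    (hTfrac : ∀ x ∈ T, ∃ (n : ℕ) (r : R), x * (g : K) ^ n = r)
    (ι : PLACE.BB t →ₐ[ℂ] T) (hι : ∀ b, ((ι b : T) : K) = ((b : F) : K))
    (h : PLACE.BB t) (hh0 : h ≠ 0)
    (hlift : ∀ z : PLACE.BB t →ₐ[ℂ] ℂ, z h ≠ 0 → ∃ ζ : T →ₐ[ℂ] ℂ, ζ.comp ι = z)
    (w : Pl F) (hwt : w.1 t = 0) (hwh : w.1 (h : F) = 0) : w ∈ Hit X F := by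
  have ht0 : t ≠ 0 := fun h => ht 0 (by rw [h, map_zero])
  have hcoeB : ∀ b : PLACE.BB t, b ≠ 0 → ((b : F)) ≠ 0 := fun b hb h => hb (Subtype.ext h)
  have hcoeK : ∀ b : PLACE.BB t, b ≠ 0 → ((b : F) : K) ≠ 0 :=
    fun b hb h => hcoeB b hb (Subtype.ext h)
  have hwB : ∀ b : PLACE.BB t, b ≠ 0 → 0 ≤ w.1 b := by
    intro b hb
    have htV : t ∈ D3_vs w := Or.inr hwt.ge
    have h1 : (b : F) ∈ D3_vs w := PLACE.mem_of_integral (D3_vs w)
      (fun a : PLACE.AA t => PLACE.adjoin_mem (D3_vs w) (D3_const_mem w) htV a.2) b.2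
    rcases h1 with h1 | h1
    · exact absurd h1 (hcoeB b hb)
    · exact h1
  have hmulw : ∀ a b : PLACE.BB t, a ≠ 0 → b ≠ 0 → w.1 ((a * b : PLACE.BB t) : F) =
      w.1 a + w.1 b := fun a b ha hb => w.2.mul _ _ (hcoeB a ha) (hcoeB b hb)
  have haddw : ∀ a b : PLACE.BB t, a ≠ 0 → b ≠ 0 → a + b ≠ 0 → min (w.1 a) (w.1 b) ≤
      w.1 ((a + b : PLACE.BB t) : F) :=
    fun a b ha hb hab => w.2.add _ _ (hcoeB a ha) (hcoeB b hb) (hcoeB _ hab)
  obtain ⟨P, hPdef⟩ : ∃ P : Ideal (PLACE.BB t), P = D3_P (fun b : PLACE.BB t => w.1 b)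
    hmulw haddw hwB := ⟨_, rfl⟩
  have hPp : P.IsPrime := by
    rw [hPdef]
    exact D3_P_prime _ _ _ _
  have hPmem : ∀ b, b ∈ P ↔ b = 0 ∨ 0 < w.1 b := by
    intro b
    rw [hPdef]
    exact Iff.rfl
  have hres : ∀ b : PLACE.BB t, ∃ c : ℂ, b - algebraMap ℂ (PLACE.BB t) c ∈ P := by
    intro b
    by_cases hb : b = 0
    · refine ⟨0, ?_⟩
      rw [hb, map_zero, sub_zero]
      exact P.zero_mem
    · rcases lt_or_eq_of_le (hwB b hb) with h1 | h1
      · refine ⟨0, ?_⟩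
        rw [map_zero, sub_zero, hPmem]
        exact Or.inr h1
      · obtain ⟨c, -, hc⟩ := hRES F hF w (b : F) (hcoeB b hb) h1.symm
        refine ⟨c, ?_⟩
        rw [hPmem]
        rcases hc with hc | hc
        · left
          apply Subtype.ext
          change (b : F) - algebraMap ℂ F c = 0
          rw [hc, sub_self]
        · right
          exact hc
  obtain ⟨z, hz⟩ := D3_point P hPp hres
  obtain ⟨ζ, hζ⟩ := hlift z (by
    rw [Ne, hz, hPmem]
    rintro (h1 | h1)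
    · exact hh0 h1
    · omega)
  have hζz : ∀ b, ζ (ι b) = z b := fun b => DFunLike.congr_fun hζ b
  let inc : R →ₐ[ℂ] T := Subalgebra.inclusion hRT
  let ψ : R →ₐ[ℂ] ℂ := ζ.comp inc
  have hψg : ψ g ≠ 0 := by
    intro h0
    have h1 : inc g * ⟨(g : K)⁻¹, hgT⟩ = 1 := Subtype.ext (mul_inv_cancel₀ hg)
    have h2 := congrArg ζ h1
    rw [map_mul, map_one] at h2
    have h3 : ζ (inc g) = 0 := h0
    rw [h3, zero_mul] at h2
    exact zero_ne_one h2
  have hψT : ∀ (x : T) (n : ℕ) (r : R), (x : K) * (g : K) ^ n = r → ψ r = ζ x * (ψ g) ^ n := by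
    intro x n r hx
    have h1 : inc r = x * (inc g) ^ n := Subtype.ext (by
      change (r : K) = (x : K) * ((inc g : T) ^ n : T)
      rw [← hx]
      rfl)
    change ζ (inc r) = ζ x * (ζ (inc g)) ^ n
    rw [h1, map_mul, map_pow]
  -- the element `t - c`
  obtain ⟨c, hc0, hc⟩ := hRES F hF w t ht0 hwt
  have hc' : 0 < w.1 (t - algebraMap ℂ F c) := by
    rcases hc with hc | hc
    · exact absurd hc (ht c)
    · exact hc
  obtain ⟨b₀, hb₀⟩ : ∃ b₀ : PLACE.BB t, (b₀ : F) = t - algebraMap ℂ F c :=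
    ⟨PLACE.yy t - algebraMap ℂ (PLACE.BB t) c, rfl⟩
  have hb₀0 : b₀ ≠ 0 := by
    rintro rfl
    have : (0 : F) = t - algebraMap ℂ F c := hb₀
    exact ht c (sub_eq_zero.mp this.symm)
  have hb₀P : b₀ ∈ P := by
    rw [hPmem, hb₀]
    exact Or.inr hc'
  obtain ⟨n, r, hr⟩ := hTfrac (ι b₀ : K) (ι b₀).2
  have hr0 : r ≠ 0 := by
    rintro rfl
    rw [hι] at hr
    rcases mul_eq_zero.mp hr with h1 | h1
    · exact hcoeK b₀ hb₀0 h1
    · exact pow_ne_zero _ hg h1
  have hψr : ψ r = 0 := by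
    rw [hψT (ι b₀) n r hr, hζz, (hz b₀).mpr hb₀P, zero_mul]
  have hRft : Algebra.FiniteType ℂ R := (Subalgebra.fg_iff_finiteType R).mp hR.fg
  have hRnoeth : IsNoetherianRing R := Algebra.FiniteType.isNoetherianRing ℂ R
  have hMp : (RingHom.ker ψ).IsPrime := RingHom.ker_isPrime _
  obtain ⟨Q, hQp, hQ0, hQM, hrQ, hQht⟩ := D3_krull r hr0 (RingHom.ker ψ) hMp
    ((RingHom.mem_ker).mpr hψr)
  obtain ⟨v, hv, hvR, hvQ, hvfrac⟩ := hHT1 K R hR Q hQp hQ0 hQht
  have hvM : ∀ r : R, ψ r ≠ 0 → v r = 0 := by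
    intro r' hr'
    have h0 : r' ≠ 0 := by
      rintro rfl
      exact hr' (map_zero _)
    have h1 : r' ∉ Q := fun h2 => hr' ((RingHom.mem_ker).mp (hQM h2))
    have h2 := (hvQ r' h0).not.mpr h1
    have h3 := hvR r'
    omega
  have hvg := hvM g hψg
  have hv1 : v 1 = 0 := by
    have := hv.const 1
    rwa [map_one] at this
  have hvgn : ∀ n : ℕ, v ((g : K) ^ n) = 0 := by
    intro n
    have := D3_zpow v hv.mul hv1 hg n
    rw [hvg, mul_zero, zpow_natCast] at this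
    exact this
  have hvB : ∀ b : PLACE.BB t, b ≠ 0 → ∃ r' : R, r' ≠ 0 ∧ v ((b : F) : K) = v r' ∧
      (ψ r' = 0 ↔ b ∈ P) := by
    intro b hb
    obtain ⟨n', r', hr'⟩ := hTfrac (ι b : K) (ι b).2
    have h1 := hψT (ι b) n' r' hr'
    rw [hι] at hr'
    have h2 : ((g : K) ^ n') ≠ 0 := pow_ne_zero _ hg
    refine ⟨r', ?_, ?_, ?_⟩
    · rintro rfl
      rcases mul_eq_zero.mp hr' with h3 | h3
      · exact hcoeK b hb h3
      · exact h2 h3
    · rw [← hr', hv.mul _ _ (hcoeK b hb) h2, hvgn, add_zero]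
    · rw [h1, mul_eq_zero, hζz, hz]
      constructor
      · rintro (h3 | h3)
        · exact h3
        · exact absurd h3 (pow_ne_zero _ hψg)
      · exact Or.inl
  have hvBpos : ∀ b : PLACE.BB t, b ≠ 0 → 0 ≤ v ((b : F) : K) := by
    intro b hb
    obtain ⟨r', -, h1, -⟩ := hvB b hb
    rw [h1]
    exact hvR r'
  have hmulv : ∀ a b : PLACE.BB t, a ≠ 0 → b ≠ 0 → v (((a * b : PLACE.BB t) : F) : K) =
      v ((a : F) : K) + v ((b : F) : K) := fun a b ha hb => hv.mul _ _ (hcoeK a ha) (hcoeK b hb)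
  have haddv : ∀ a b : PLACE.BB t, a ≠ 0 → b ≠ 0 → a + b ≠ 0 →
      min (v ((a : F) : K)) (v ((b : F) : K)) ≤ v (((a + b : PLACE.BB t) : F) : K) :=
    fun a b ha hb hab => hv.add _ _ (hcoeK a ha) (hcoeK b hb) (hcoeK _ hab)
  obtain ⟨Pv, hPvdef⟩ : ∃ Pv : Ideal (PLACE.BB t), Pv = D3_P
    (fun b : PLACE.BB t => v ((b : F) : K)) hmulv haddv hvBpos := ⟨_, rfl⟩
  have hPvp : Pv.IsPrime := by
    rw [hPvdef]
    exact D3_P_prime _ _ _ _
  have hPvmem : ∀ b, b ∈ Pv ↔ b = 0 ∨ 0 < v ((b : F) : K) := by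
    intro b
    rw [hPvdef]
    exact Iff.rfl
  have hb₀v : b₀ ∈ Pv := by
    rw [hPvmem]
    right
    have h2 : v ((b₀ : F) : K) = v r := by
      rw [hι] at hr
      rw [← hr, hv.mul _ _ (hcoeK b₀ hb₀0) (pow_ne_zero _ hg), hvgn, add_zero]
    rw [h2]
    exact (hvQ r hr0).mpr hrQ
  have hPvP : Pv ≤ P := by
    intro b hb
    by_cases hb0 : b = 0
    · rw [hb0]
      exact P.zero_mem
    obtain ⟨r', -, h1, h2⟩ := hvB b hb0
    rw [← h2]
    by_contra h3
    have h4 := hvM r' h3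
    rw [hPvmem] at hb
    rcases hb with hb | hb
    · exact hb0 hb
    · omega
  have hPv0 : Pv ≠ ⊥ := by
    rintro h0
    rw [h0, Ideal.mem_bot] at hb₀v
    exact hb₀0 hb₀v
  have hPvmax : Pv.IsMaximal := hPvp.isMaximal hPv0
  have hPeq : Pv = P := hPvmax.eq_of_le hPp.ne_top hPvP
  have hP0 : P ≠ ⊥ := hPeq ▸ hPv0
  obtain ⟨e, he⟩ := D3_over F (t := t) w ⟨P, hPp, hP0⟩ hwB
    (fun b hb => by
      change b ∈ P ↔ _
      rw [hPmem]
      exact ⟨fun h1 => h1.resolve_left hb, Or.inr⟩)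
    v hv
    (fun b hb hbP => by
      have h1 : b ∈ P := hbP
      rw [← hPeq, hPvmem] at h1
      exact h1.resolve_left hb)
    (fun b hb hbP => by
      have h1 : b ∉ P := hbP
      rw [← hPeq, hPvmem, not_or] at h1
      have h2 := hvBpos b hb
      omega)
  refine ⟨v, ⟨hv, locAt R ψ, hXR ψ, ?_, ?_⟩, e, he⟩
  · intro p hp
    obtain ⟨p', q', h1, h2⟩ := hp
    by_cases hp0 : p = 0
    · rw [hp0, hv.zero]
    have hq' : (q' : K) ≠ 0 := by
      intro h3
      apply h1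
      have : q' = 0 := Subtype.ext h3
      rw [this, map_zero]
    have h3 := hv.mul p q' hp0 hq'
    rw [h2, hvM q' h1] at h3
    have h4 := hvR p'
    omega
  · intro f hf
    obtain ⟨p, q, hq0, hvq, hpq⟩ := hvfrac f hf
    refine ⟨p, ⟨p, 1, by simp, by simp⟩, q, ⟨q, 1, by simp, by simp⟩, ?_, hvq, hpq⟩
    intro h3
    exact hq0 (Subtype.ext h3)

theorem st_D3 (hHT1 : ST_HT1) (hGL : ST_GLIFT) (hDEG : ST_DEG) (hRES : ST_RES) : ST_D3 := by
  intro K _ _ X hX F hF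
  obtain ⟨t, ht⟩ := hF.nonconst
  have ht0 : t ≠ 0 := fun h => ht 0 (by rw [h, map_zero])
  obtain ⟨Dt, hDt, -, hfin⟩ := hDEG F hF t ht0
  obtain ⟨hded, hfr, hft⟩ := D3_closure t (hfin ht).1
  obtain ⟨n, R', hn, hR', hXmem⟩ := hX.charts
  obtain ⟨R, hRdef⟩ : ∃ R, R = R' ⟨0, hn⟩ := ⟨_, rfl⟩
  have hR : IsChart R := hRdef ▸ hR' _
  have hXR : ∀ φ : R →ₐ[ℂ] ℂ, locAt R φ ∈ X := by
    subst hRdef
    exact fun φ => (hXmem _).mpr ⟨_, φ, rfl⟩
  let j : PLACE.BB t →ₐ[ℂ] K := F.val.comp ((PLACE.BB t).val.restrictScalars ℂ)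
  have hj : ∀ b, j b = ((b : F) : K) := fun b => rfl
  obtain ⟨s, hs⟩ := hft.out
  classical
  obtain ⟨g, hg, hgs⟩ := D3_denoms R hR (s.image j)
  obtain ⟨T, hTfg, hRT, hgT, hTfrac⟩ := D3_loc R hR g hg
  have hjT : ∀ b, j b ∈ T := by
    intro b
    have hb : b ∈ Algebra.adjoin ℂ (s : Set (PLACE.BB t)) := by rw [hs]; trivial
    induction hb using Algebra.adjoin_induction with
    | mem x hx =>
      obtain ⟨r, hr⟩ := hgs (j x) (Finset.mem_image_of_mem _ hx)
      have h1 : j x = r * (g : K)⁻¹ := by rw [← hr, mul_assoc, mul_inv_cancel₀ hg, mul_one]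
      rw [h1]
      exact T.mul_mem (hRT r.2) hgT
    | algebraMap r => rw [AlgHom.commutes]; exact T.algebraMap_mem r
    | add x y _ _ hx hy => rw [map_add]; exact T.add_mem hx hy
    | mul x y _ _ hx hy => rw [map_mul]; exact T.mul_mem hx hy
  let ι : PLACE.BB t →ₐ[ℂ] T := j.codRestrict T hjT
  have hι : ∀ b, ((ι b : T) : K) = ((b : F) : K) := fun b => rfl
  have hιinj : Function.Injective ι := by
    intro a b hab
    have h1 := congrArg (Subtype.val : T → K) hab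
    rw [hι, hι] at h1
    exact Subtype.ext (Subtype.ext h1)
  have hTft : Algebra.FiniteType ℂ T := (Subalgebra.fg_iff_finiteType T).mp hTfg
  obtain ⟨h, hh0, hlift⟩ := hGL (PLACE.BB t) T ι hιinj
  obtain ⟨Dh, hDh, -, -⟩ := hDEG F hF (h : F) (fun h0 => hh0 (Subtype.ext h0))
  apply Set.Finite.subset ((Dt.support ∪ Dh.support).finite_toSet)
  intro w hw
  by_contra hcon
  apply hw
  simp only [Finset.coe_union, Set.mem_union, Finset.mem_coe, Finsupp.mem_support_iff, not_or,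
    not_not] at hcon
  rw [hDt w, hDh w] at hcon
  exact D3_hit hHT1 hRES X F hF t ht hded hfr R hR hXR g hg T hRT hgT hTfrac ι hι h hh0 hlift w
    hcon.1 hcon.2

end Pool.Agent.Helper43.FV
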